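import Mathlib

open Finset
open scoped FinsetFamily

namespace H281Sh

variable {α : Type*} [DecidableEq α]

/-- Without a cover of size two, an intersecting family of 3-sets has at most 27 members. -/
theorem noCover {F : Finset (Finset α)} (hk : ∀ A ∈ F, #A = 3)
    (hI : ∀ A ∈ F, ∀ B ∈ F, (A ∩ B).Nonempty)
    (hc : ∀ x y : α, ∃ E ∈ F, x ∉ E ∧ y ∉ E) : #F ≤ 27 := by
  classical
  rcases F.eq_empty_or_nonempty with h0 | ⟨A0, hA0⟩
  · simp [h0]
  choose E hE hEx hEy using hc
  have hsub : F ⊆ A0.biUnion (fun x => (E x x).biUnion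
      (fun y => (E x y).image (fun z => ({x, y, z} : Finset α)))) := by
    intro B hB
    obtain ⟨x, hx⟩ := hI B hB A0 hA0
    obtain ⟨y, hy⟩ := hI B hB (E x x) (hE x x)
    obtain ⟨z, hz⟩ := hI B hB (E x y) (hE x y)
    rw [mem_inter] at hx hy hz
    have hxy : y ≠ x := fun h => hEx x x (h ▸ hy.2)
    have hzx : z ≠ x := fun h => hEx x y (h ▸ hz.2)
    have hzy : z ≠ y := fun h => hEy x y (h ▸ hz.2)
    simp only [mem_biUnion, mem_image]
    refine ⟨x, hx.2, y, hy.2, z, hz.2, ?_⟩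
    apply eq_of_subset_of_card_le
    · intro w hw
      simp only [mem_insert, mem_singleton] at hw
      rcases hw with rfl | rfl | rfl
      · exact hx.1
      · exact hy.1
      · exact hz.1
    · rw [hk B hB, card_eq_three.mpr ⟨x, y, z, hxy.symm, hzx.symm, hzy.symm, rfl⟩]
  refine (card_le_card hsub).trans ?_
  calc _ ≤ #A0 * 9 := by
        refine card_biUnion_le_card_mul _ _ _ (fun x _ => ?_)
        calc _ ≤ #(E x x) * 3 := by
              refine card_biUnion_le_card_mul _ _ _ (fun y _ => ?_)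
              exact card_image_le.trans (hk _ (hE x y)).le
          _ = 9 := by rw [hk _ (hE x x)]
    _ = 27 := by rw [hk A0 hA0]

/-- If all members of `H` (2-sets) contain `x`, lie in `V` and `x ∈ V`, then `#H + 1 ≤ #V`. -/
theorem star_card {H : Finset (Finset α)} {V : Finset α} {x : α}
    (h2 : ∀ e ∈ H, #e = 2) (hx : ∀ e ∈ H, x ∈ e) (hV : ∀ e ∈ H, e ⊆ V) (hxV : x ∈ V) :
    #H + 1 ≤ #V := by
  classical
  have h1 : #H ≤ #(powersetCard 1 (V.erase x)) := by
    apply card_le_card_of_injOn (fun e => e.erase x)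
    · intro e he
      have he' : e ∈ H := he
      simp only [mem_coe, mem_powersetCard]
      refine ⟨?_, ?_⟩
      · intro w hw
        rw [mem_erase] at hw ⊢
        exact ⟨hw.1, hV e he' hw.2⟩
      · rw [card_erase_of_mem (hx e he'), h2 e he']
    · intro e he f hf hef
      have he' : e ∈ H := he
      have hf' : f ∈ H := hf
      have h := congrArg (insert x) hef
      simpa [insert_erase (hx e he'), insert_erase (hx f hf')] using h
  rw [card_powersetCard, Nat.choose_one_right, card_erase_of_mem hxV] at h1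
  have : 0 < #V := card_pos.mpr ⟨x, hxV⟩
  omega

/-- Three 2-sets through `x` : every 2-set meeting them all contains `x`. -/
theorem three_star {H : Finset (Finset α)} {x : α}
    (h2 : ∀ e ∈ H, #e = 2) (h3 : 3 ≤ #(H.filter (x ∈ ·))) {f : Finset α} (hf : #f = 2)
    (hm : ∀ e ∈ H, (e ∩ f).Nonempty) : x ∈ f := by
  classical
  by_contra hxf
  have h1 := star_card (H := H.filter (x ∈ ·)) (V := insert x f) (x := x)
    (fun e he => h2 e (mem_filter.mp he).1) (fun e he => (mem_filter.mp he).2)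
    (fun e he => by
      obtain ⟨heH, hxe⟩ := mem_filter.mp he
      obtain ⟨w, hw⟩ := hm e heH
      rw [mem_inter] at hw
      have hwx : w ≠ x := fun h => hxf (h ▸ hw.2)
      have : e = {x, w} := by
        symm
        apply eq_of_subset_of_card_le
        · intro u hu
          simp only [mem_insert, mem_singleton] at hu
          rcases hu with rfl | rfl
          · exact hxe
          · exact hw.1
        · rw [h2 e heH, card_pair hwx.symm]
      rw [this]
      intro u hu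
      simp only [mem_insert, mem_singleton] at hu ⊢
      rcases hu with rfl | rfl
      · exact Or.inl rfl
      · exact Or.inr hw.2) (mem_insert_self _ _)
  rw [card_insert_of_notMem hxf, hf] at h1
  omega

/-- Four pairwise meeting 2-sets have a common point `z` which lies in every 2-set meeting
them all. -/
theorem four_star {H : Finset (Finset α)} (h2 : ∀ e ∈ H, #e = 2) (h4 : 4 ≤ #H)
    (hI : ∀ e ∈ H, ∀ f ∈ H, (e ∩ f).Nonempty) :
    ∃ z, ∀ f : Finset α, #f = 2 → (∀ e ∈ H, (e ∩ f).Nonempty) → z ∈ f := by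
  classical
  obtain ⟨e0, he0⟩ : H.Nonempty := card_pos.mp (by omega)
  obtain ⟨x, y, hxy, rfl⟩ := card_eq_two.mp (h2 e0 he0)
  have hun : H.filter (x ∈ ·) ∪ H.filter (y ∈ ·) = H := by
    ext e
    simp only [mem_union, mem_filter]
    constructor
    · rintro (h | h)
      · exact h.1
      · exact h.1
    · intro h
      obtain ⟨w, hw⟩ := hI e h _ he0
      simp only [mem_inter, mem_insert, mem_singleton] at hw
      rcases hw with ⟨hw, rfl | rfl⟩
      · exact Or.inl ⟨h, hw⟩
      · exact Or.inr ⟨h, hw⟩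
  have hin : 1 ≤ #(H.filter (x ∈ ·) ∩ H.filter (y ∈ ·)) := by
    apply card_pos.mpr
    refine ⟨{x, y}, ?_⟩
    simp [he0]
  have hc := card_union_add_card_inter (H.filter (x ∈ ·)) (H.filter (y ∈ ·))
  rw [hun] at hc
  by_cases h3 : 3 ≤ #(H.filter (x ∈ ·))
  · exact ⟨x, fun f hf hm => three_star h2 h3 hf hm⟩
  · exact ⟨y, fun f hf hm => three_star h2 (by omega) hf hm⟩

end H281Sh

namespace H281Sh

variable {α : Type*} [DecidableEq α]

/-- third points of the members containing both `a` and `b` -/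
def Dd (F : Finset (Finset α)) (a b : α) : Finset α :=
  (F.filter (fun E => a ∈ E ∧ b ∈ E)).biUnion (fun E => (E.erase a).erase b)

/-- link graph at `a` of the members avoiding `b` -/
def Gg (F : Finset (Finset α)) (a b : α) : Finset (Finset α) :=
  (F.filter (fun E => a ∈ E ∧ b ∉ E)).image (fun E => E.erase a)

def Uu (F : Finset (Finset α)) (a b : α) : Finset α := Dd F a b ∪ (Gg F a b).biUnion id

theorem Dd_comm (F : Finset (Finset α)) (a b : α) : Dd F a b = Dd F b a := by
  unfold Dd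
  have : F.filter (fun E => a ∈ E ∧ b ∈ E) = F.filter (fun E => b ∈ E ∧ a ∈ E) := by
    apply filter_congr
    intro E _
    exact and_comm
  rw [this]
  apply biUnion_congr rfl
  intro E _
  rw [erase_right_comm]

theorem mem_Gg {F : Finset (Finset α)} {a b : α} {e : Finset α} :
    e ∈ Gg F a b ↔ ∃ E ∈ F, a ∈ E ∧ b ∉ E ∧ E.erase a = e := by
  simp only [Gg, mem_image, mem_filter]
  constructor
  · rintro ⟨E, ⟨h1, h2, h3⟩, h4⟩
    exact ⟨E, h1, h2, h3, h4⟩
  · rintro ⟨E, h1, h2, h3, h4⟩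
    exact ⟨E, ⟨h1, h2, h3⟩, h4⟩

theorem card_Gg (F : Finset (Finset α)) (a b : α) :
    #(Gg F a b) = #(F.filter (fun E => a ∈ E ∧ b ∉ E)) := by
  unfold Gg
  apply card_image_of_injOn
  intro E hE E' hE' h
  have h1 : a ∈ E := (mem_filter.mp (mem_coe.mp hE)).2.1
  have h2 : a ∈ E' := (mem_filter.mp (mem_coe.mp hE')).2.1
  have h3 := congrArg (insert a) h
  simpa [insert_erase h1, insert_erase h2] using h3

theorem Gg_two {F : Finset (Finset α)} (hk : ∀ A ∈ F, #A = 3) {a b : α} {e : Finset α}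
    (he : e ∈ Gg F a b) : #e = 2 := by
  obtain ⟨E, hE, ha, -, rfl⟩ := mem_Gg.mp he
  rw [card_erase_of_mem ha, hk E hE]

theorem card_Dd {F : Finset (Finset α)} (hk : ∀ A ∈ F, #A = 3) {a b : α} (hab : a ≠ b) :
    #(F.filter (fun E => a ∈ E ∧ b ∈ E)) ≤ #(Dd F a b) := by
  have h1 : #(F.filter (fun E => a ∈ E ∧ b ∈ E)) ≤ #(powersetCard 1 (Dd F a b)) := by
    apply card_le_card_of_injOn (fun E => (E.erase a).erase b)
    · intro E hE
      have hE' := hE
      rw [mem_coe, mem_filter] at hE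
      obtain ⟨hEF, ha, hb⟩ := hE
      simp only [mem_coe, mem_powersetCard]
      refine ⟨?_, ?_⟩
      · intro w hw
        exact mem_biUnion.mpr ⟨E, hE', hw⟩
      · rw [card_erase_of_mem (mem_erase.mpr ⟨hab.symm, hb⟩), card_erase_of_mem ha, hk E hEF]
    · intro E hE E' hE' h
      rw [mem_coe, mem_filter] at hE hE'
      have h3 := congrArg (fun s => insert a (insert b s)) h
      simp only at h3
      rwa [insert_erase (mem_erase.mpr ⟨hab.symm, hE.2.2⟩), insert_erase hE.2.1,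
        insert_erase (mem_erase.mpr ⟨hab.symm, hE'.2.2⟩), insert_erase hE'.2.1] at h3
  rwa [card_powersetCard, Nat.choose_one_right] at h1

theorem pair_shadow {F : Finset (Finset α)} (hk : ∀ A ∈ F, #A = 3) {E s : Finset α}
    (hE : E ∈ F) (hs : s ⊆ E) (h2 : #s = 2) : s ∈ ∂ F :=
  mem_shadow_iff_exists_mem_card_add_one.mpr ⟨E, hE, hs, by rw [hk E hE, h2]⟩

theorem part1 {F : Finset (Finset α)} (hk : ∀ A ∈ F, #A = 3) {a b : α} (hab : a ≠ b) :
    #(Uu F a b) ≤ #((∂ F).filter (fun s => a ∈ s ∧ b ∉ s)) := by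
  have key : ∀ x ∈ Uu F a b, ∃ E ∈ F, a ∈ E ∧ x ∈ E ∧ x ≠ a ∧ x ≠ b := by
    intro x hx
    rw [Uu, mem_union] at hx
    rcases hx with hx | hx
    · obtain ⟨E, hE, hxE⟩ := mem_biUnion.mp hx
      rw [mem_filter] at hE
      rw [mem_erase, mem_erase] at hxE
      exact ⟨E, hE.1, hE.2.1, hxE.2.2, hxE.2.1, hxE.1⟩
    · obtain ⟨e, he, hxe⟩ := mem_biUnion.mp hx
      obtain ⟨E, hE, ha, hb, rfl⟩ := mem_Gg.mp he
      have hxe' : x ∈ E.erase a := hxe
      rw [mem_erase] at hxe'
      exact ⟨E, hE, ha, hxe'.2, hxe'.1, fun h => hb (h ▸ hxe'.2)⟩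
  apply card_le_card_of_injOn (fun x => ({a, x} : Finset α))
  · intro x hx
    obtain ⟨E, hE, ha, hxE, hxa, hxb⟩ := key x (mem_coe.mp hx)
    rw [mem_coe, mem_filter]
    refine ⟨pair_shadow hk hE ?_ (card_pair hxa.symm), by simp, by simp [hab.symm, hxb.symm]⟩
    intro w hw
    simp only [mem_insert, mem_singleton] at hw
    rcases hw with rfl | rfl
    · exact ha
    · exact hxE
  · intro x hx y hy hxy
    obtain ⟨-, -, -, -, hxa, -⟩ := key x (mem_coe.mp hx)
    have hx' : x ∈ ({a, y} : Finset α) := by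
      have : x ∈ ({a, x} : Finset α) := by simp
      have hxy' : ({a, x} : Finset α) = {a, y} := hxy
      rwa [hxy'] at this
    simp only [mem_insert, mem_singleton] at hx'
    exact hx'.resolve_left hxa

theorem part3 {F : Finset (Finset α)} (hk : ∀ A ∈ F, #A = 3) {a b : α} :
    #(Gg F a b ∪ Gg F b a) ≤ #((∂ F).filter (fun s => a ∉ s ∧ b ∉ s)) := by
  apply card_le_card
  intro e he
  rw [mem_union] at he
  rw [mem_filter]
  rcases he with he | he
  · obtain ⟨E, hE, ha, hb, rfl⟩ := mem_Gg.mp he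
    exact ⟨erase_mem_shadow hE ha, notMem_erase _ _, fun h => hb (mem_of_mem_erase h)⟩
  · obtain ⟨E, hE, ha, hb, rfl⟩ := mem_Gg.mp he
    exact ⟨erase_mem_shadow hE ha, fun h => hb (mem_of_mem_erase h), notMem_erase _ _⟩

theorem part0 {F : Finset (Finset α)} (hk : ∀ A ∈ F, #A = 3) {a b : α} (hab : a ≠ b)
    (h : 1 ≤ #(F.filter (fun E => a ∈ E ∧ b ∈ E))) :
    1 ≤ #((∂ F).filter (fun s => a ∈ s ∧ b ∈ s)) := by
  obtain ⟨E, hE⟩ := card_pos.mp h
  rw [mem_filter] at hE
  apply card_pos.mpr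
  refine ⟨{a, b}, mem_filter.mpr ⟨pair_shadow hk hE.1 ?_ (card_pair hab), by simp, by simp⟩⟩
  intro w hw
  simp only [mem_insert, mem_singleton] at hw
  rcases hw with rfl | rfl
  · exact hE.2.1
  · exact hE.2.2

theorem split4 (Q : Finset (Finset α)) (a b : α) :
    #Q = #(Q.filter (fun s => a ∈ s ∧ b ∈ s)) + #(Q.filter (fun s => a ∈ s ∧ b ∉ s))
      + #(Q.filter (fun s => b ∈ s ∧ a ∉ s)) + #(Q.filter (fun s => a ∉ s ∧ b ∉ s)) := by
  have h1 := card_filter_add_card_filter_not (s := Q) (fun s => a ∈ s)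
  have h2 := card_filter_add_card_filter_not (s := Q.filter (fun s => a ∈ s)) (fun s => b ∈ s)
  have h3 := card_filter_add_card_filter_not (s := Q.filter (fun s => ¬ a ∈ s)) (fun s => b ∈ s)
  rw [filter_filter, filter_filter] at h2 h3
  have h4 : Q.filter (fun s => b ∈ s ∧ a ∉ s) = Q.filter (fun s => a ∉ s ∧ b ∈ s) := by
    apply filter_congr
    intro s _
    exact and_comm
  rw [h4]
  omega

theorem cross {F : Finset (Finset α)} (hI : ∀ A ∈ F, ∀ B ∈ F, (A ∩ B).Nonempty) {a b : α}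
    {e f : Finset α} (he : e ∈ Gg F a b) (hf : f ∈ Gg F b a) : (e ∩ f).Nonempty := by
  obtain ⟨E, hE, ha, hb, rfl⟩ := mem_Gg.mp he
  obtain ⟨E', hE', ha', hb', rfl⟩ := mem_Gg.mp hf
  obtain ⟨w, hw⟩ := hI E hE E' hE'
  rw [mem_inter] at hw
  refine ⟨w, mem_inter.mpr ⟨mem_erase.mpr ⟨?_, hw.1⟩, mem_erase.mpr ⟨?_, hw.2⟩⟩⟩
  · rintro rfl
    exact hb' hw.2
  · rintro rfl
    exact hb hw.1

theorem choose_bound {G : Finset (Finset α)} {U : Finset α} (h2 : ∀ e ∈ G, #e = 2)
    (hU : ∀ e ∈ G, e ⊆ U) (h12 : 12 ≤ #G) : 6 ≤ #U := by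
  by_contra h
  have h1 : #G ≤ #(powersetCard 2 U) :=
    card_le_card (fun e he => mem_powersetCard.mpr ⟨hU e he, h2 e he⟩)
  rw [card_powersetCard] at h1
  have h3 : (#U).choose 2 ≤ Nat.choose 5 2 := Nat.choose_le_choose 2 (by omega)
  have h4 : Nat.choose 5 2 = 10 := by decide
  omega

theorem Gg_sub_Uu {F : Finset (Finset α)} {a b : α} : ∀ e ∈ Gg F a b, e ⊆ Uu F a b := by
  intro e he w hw
  exact mem_union.mpr (Or.inr (mem_biUnion.mpr ⟨e, he, hw⟩))

/-- The lower bound when `{a, b}` is a cover. -/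
theorem lower_cover {F : Finset (Finset α)} (hk : ∀ A ∈ F, #A = 3)
    (hI : ∀ A ∈ F, ∀ B ∈ F, (A ∩ B).Nonempty) {a b : α} (hab : a ≠ b)
    (hc : ∀ E ∈ F, a ∈ E ∨ b ∈ E) (h28 : 28 ≤ #F) :
    #F + 2 ≤ #(∂ F) ∧ (#F % 3 ≠ 1 → #F + 3 ≤ #(∂ F)) := by
  have hF := split4 F a b
  have hF0 : #(F.filter (fun s => a ∉ s ∧ b ∉ s)) = 0 := by
    rw [card_eq_zero, filter_eq_empty_iff]
    intro E hE h
    rcases hc E hE with h' | h'
    · exact h.1 h'
    · exact h.2 h'
  have hQ := split4 (∂ F) a b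
  have hg1 := card_Gg F a b
  have hg2 := card_Gg F b a
  have hd := card_Dd hk hab
  have hu1 : #(Dd F a b) ≤ #(Uu F a b) := card_le_card subset_union_left
  have hu2 : #(Dd F a b) ≤ #(Uu F b a) := by
    rw [Dd_comm]
    exact card_le_card subset_union_left
  have hp1 := part1 hk hab
  have hp2 := part1 hk hab.symm
  have hp3 := part3 hk (a := a) (b := b)
  have hp0 := part0 hk hab
  have hui := card_union_add_card_inter (Gg F a b) (Gg F b a)
  have hi1 : #(Gg F a b ∩ Gg F b a) ≤ #(Gg F a b) := card_le_card inter_subset_left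
  have hi2 : #(Gg F a b ∩ Gg F b a) ≤ #(Gg F b a) := card_le_card inter_subset_right
  by_cases hc4 : 4 ≤ #(Gg F a b ∩ Gg F b a)
  · obtain ⟨z, hz⟩ := four_star (H := Gg F a b ∩ Gg F b a)
      (fun e he => Gg_two hk (mem_inter.mp he).1) hc4
      (fun e he f hf => cross hI (mem_inter.mp he).1 (mem_inter.mp hf).2)
    have hz1 : ∀ f ∈ Gg F a b, z ∈ f := fun f hf => hz f (Gg_two hk hf) (fun e he => by
      rw [inter_comm]
      exact cross hI hf (mem_inter.mp he).2)
    have hz2 : ∀ f ∈ Gg F b a, z ∈ f := fun f hf => hz f (Gg_two hk hf) (fun e he =>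
      cross hI (mem_inter.mp he).1 hf)
    obtain ⟨e0, he0⟩ : (Gg F a b ∩ Gg F b a).Nonempty := card_pos.mp (by omega)
    have hs1 := star_card (H := Gg F a b) (V := Uu F a b) (x := z) (fun e he => Gg_two hk he) hz1
      Gg_sub_Uu (Gg_sub_Uu e0 (mem_inter.mp he0).1 (hz1 e0 (mem_inter.mp he0).1))
    have hs2 := star_card (H := Gg F b a) (V := Uu F b a) (x := z) (fun e he => Gg_two hk he) hz2
      Gg_sub_Uu (Gg_sub_Uu e0 (mem_inter.mp he0).2 (hz2 e0 (mem_inter.mp he0).2))
    by_cases hd0 : 1 ≤ #(F.filter (fun E => a ∈ E ∧ b ∈ E))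
    · have := hp0 hd0
      constructor
      · omega
      · intro hm
        omega
    · constructor
      · omega
      · intro hm
        omega
  · have h3 : #F + 3 ≤ #(∂ F) := by
      by_cases hd5 : 5 ≤ #(F.filter (fun E => a ∈ E ∧ b ∈ E))
      · have := hp0 (by omega)
        omega
      · by_cases h12 : 12 ≤ #(Gg F a b)
        · have := choose_bound (U := Uu F a b) (fun e he => Gg_two hk he) Gg_sub_Uu h12
          omega
        · have := choose_bound (U := Uu F b a) (G := Gg F b a) (fun e he => Gg_two hk he)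
            Gg_sub_Uu (by omega)
          omega
    exact ⟨by omega, fun _ => h3⟩

/-- **Lower bound.** -/
theorem lower {F : Finset (Finset α)} (hk : ∀ A ∈ F, #A = 3)
    (hI : ∀ A ∈ F, ∀ B ∈ F, (A ∩ B).Nonempty) (h28 : 28 ≤ #F) :
    #F + 2 ≤ #(∂ F) ∧ (#F % 3 ≠ 1 → #F + 3 ≤ #(∂ F)) := by
  by_cases hc : ∀ x y : α, ∃ E ∈ F, x ∉ E ∧ y ∉ E
  · have := noCover hk hI hc
    omega
  · push Not at hc
    obtain ⟨x, y, hxy⟩ := hc
    have hcov : ∀ E ∈ F, x ∈ E ∨ y ∈ E := by
      intro E hE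
      by_cases h : x ∈ E
      · exact Or.inl h
      · exact Or.inr (hxy E hE h)
    by_cases hne : x = y
    · subst hne
      obtain ⟨E, hE⟩ : F.Nonempty := card_pos.mp (by omega)
      obtain ⟨w, hw, hwx⟩ := exists_mem_ne (s := E) (by rw [hk E hE]; omega) x
      exact lower_cover hk hI hwx.symm (fun E hE => Or.inl (by
        rcases hcov E hE with h | h
        · exact h
        · exact h)) h28
    · exact lower_cover hk hI hne hcov h28

end H281Sh
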