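import Pool.Agent.Helper281.Sh.Lower

open Finset
open scoped FinsetFamily

namespace H281Sh

variable {α : Type*} [DecidableEq α]

theorem meet_split {G : Finset (Finset α)} {y z : α} (hm : ∀ e ∈ G, (e ∩ {y, z}).Nonempty) :
    G.filter (fun e => y ∉ e) ⊆ G.filter (fun e => z ∈ e ∧ y ∉ e) := by
  intro e he
  rw [mem_filter] at he ⊢
  obtain ⟨w, hw⟩ := hm e he.1
  simp only [mem_inter, mem_insert, mem_singleton] at hw
  rcases hw with ⟨hw, rfl | rfl⟩
  · exact absurd hw he.2
  · exact ⟨he.1, hw, he.2⟩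

theorem cross_aux {G1 G2 : Finset (Finset α)} {U : Finset α} {y z : α} (hyz : y ≠ z)
    (h1 : ∀ e ∈ G1, #e = 2) (h2 : ∀ e ∈ G2, #e = 2)
    (hU1 : ∀ e ∈ G1, e ⊆ U) (hU2 : ∀ e ∈ G2, e ⊆ U)
    (hc : ∀ e ∈ G1, ∀ f ∈ G2, (e ∩ f).Nonempty) (hf : {y, z} ∈ G2) (h10 : 10 ≤ #G1)
    (h3 : 3 ≤ #(G1.filter (y ∈ ·))) : #G1 + #G2 + 2 ≤ 2 * #U := by
  have hyU : y ∈ U := hU2 _ hf (by simp)
  have hzU : z ∈ U := hU2 _ hf (by simp)
  have hy2 : ∀ f ∈ G2, y ∈ f := fun f hf => three_star h1 h3 (h2 f hf) (fun e he => hc e he f hf)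
  have hs2 := star_card h2 hy2 hU2 hyU
  by_cases hg : 3 ≤ #G2
  · have hfil : G2.filter (y ∈ ·) = G2 := filter_true_of_mem hy2
    have hy1 : ∀ e ∈ G1, y ∈ e := fun e he =>
      three_star h2 (by rw [hfil]; exact hg) (h1 e he) (fun f hf => by
        rw [inter_comm]; exact hc e he f hf)
    have hs1 := star_card h1 hy1 hU1 hyU
    omega
  · have hA := star_card (H := G1.filter (y ∈ ·)) (V := U) (x := y)
      (fun e he => h1 e (mem_filter.mp he).1) (fun e he => (mem_filter.mp he).2)
      (fun e he => hU1 e (mem_filter.mp he).1) hyU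
    have hsp := card_filter_add_card_filter_not (s := G1) (fun e => y ∈ e)
    have hB := star_card (H := G1.filter (fun e => z ∈ e ∧ y ∉ e)) (V := U.erase y) (x := z)
      (fun e he => h1 e (mem_filter.mp he).1) (fun e he => (mem_filter.mp he).2.1)
      (fun e he w hw => mem_erase.mpr ⟨fun h => (mem_filter.mp he).2.2 (h ▸ hw),
        hU1 e (mem_filter.mp he).1 hw⟩) (mem_erase.mpr ⟨hyz.symm, hzU⟩)
    rw [card_erase_of_mem hyU] at hB
    have hC := card_le_card (meet_split (G := G1) (y := y) (z := z)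
      (fun e he => hc e he _ hf))
    by_cases hg1 : #G2 ≤ 1
    · omega
    · obtain ⟨f', hf', hne⟩ := exists_mem_ne (s := G2) (by omega) ({y, z} : Finset α)
      -- `f' = {y, w}`
      have hD : #(G1.filter (fun e => ¬ y ∈ e)) ≤ 1 := by
        have hf2 := h2 f' hf'
        have hyf := hy2 f' hf'
        have hfe : #(f'.erase y) = 1 := by rw [card_erase_of_mem hyf, hf2]
        obtain ⟨w, hw⟩ := card_eq_one.mp hfe
        have hf'' : f' = {y, w} := by rw [← insert_erase hyf, hw]
        have hwz : w ≠ z := by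
          rintro rfl
          exact hne hf''
        have hsub : G1.filter (fun e => ¬ y ∈ e) ⊆ {({z, w} : Finset α)} := by
          intro e he
          rw [mem_singleton]
          have he' := mem_filter.mp he
          have hz1 := (mem_filter.mp (meet_split (G := G1) (y := y) (z := z)
            (fun e he => hc e he _ hf) he)).2.1
          have hw1 := (mem_filter.mp (meet_split (G := G1) (y := y) (z := w)
            (fun e he => by rw [← hf'']; exact hc e he _ hf') he)).2.1
          symm
          apply eq_of_subset_of_card_le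
          · intro u hu
            simp only [mem_insert, mem_singleton] at hu
            rcases hu with rfl | rfl
            · exact hz1
            · exact hw1
          · rw [h1 e he'.1, card_pair hwz.symm]
        exact (card_le_card hsub).trans (by simp)
      have hU5 : 5 ≤ #U := by
        by_contra h
        have hh : #G1 ≤ #(powersetCard 2 U) :=
          card_le_card (fun e he => mem_powersetCard.mpr ⟨hU1 e he, h1 e he⟩)
        rw [card_powersetCard] at hh
        have h3 : (#U).choose 2 ≤ Nat.choose 4 2 := Nat.choose_le_choose 2 (by omega)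
        have h4 : Nat.choose 4 2 = 6 := by decide
        omega
      omega

theorem cross_bound {G1 G2 : Finset (Finset α)} {U : Finset α}
    (h1 : ∀ e ∈ G1, #e = 2) (h2 : ∀ e ∈ G2, #e = 2)
    (hU1 : ∀ e ∈ G1, e ⊆ U) (hU2 : ∀ e ∈ G2, e ⊆ U)
    (hc : ∀ e ∈ G1, ∀ f ∈ G2, (e ∩ f).Nonempty) (hne : G2.Nonempty) (h10 : 10 ≤ #G1) :
    #G1 + #G2 + 2 ≤ 2 * #U := by
  obtain ⟨f, hf⟩ := hne
  obtain ⟨y, z, hyz, rfl⟩ := card_eq_two.mp (h2 f hf)
  by_cases h3 : 3 ≤ #(G1.filter (y ∈ ·))
  · exact cross_aux hyz h1 h2 hU1 hU2 hc hf h10 h3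
  · have hf' : {z, y} ∈ G2 := by rwa [pair_comm]
    have hsp := card_filter_add_card_filter_not (s := G1) (fun e => y ∈ e)
    have hC := card_le_card (meet_split (G := G1) (y := y) (z := z)
      (fun e he => hc e he _ hf))
    have hE : #(G1.filter (fun e => z ∈ e ∧ y ∉ e)) ≤ #(G1.filter (z ∈ ·)) := by
      apply card_le_card
      intro e he
      rw [mem_filter] at he ⊢
      exact ⟨he.1, he.2.1⟩
    exact cross_aux hyz.symm h1 h2 hU1 hU2 hc hf' h10 (by omega)

/-- An intersecting family of 3-sets with `28` or more members and more than `3n-8` members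
is a star. -/
theorem is_star [Fintype α] {F : Finset (Finset α)} (hk : ∀ A ∈ F, #A = 3)
    (hI : ∀ A ∈ F, ∀ B ∈ F, (A ∩ B).Nonempty) (h28 : 28 ≤ #F)
    (hn : 3 * Fintype.card α < #F + 8) : ∃ a, ∀ E ∈ F, a ∈ E := by
  by_contra hstar
  push Not at hstar
  by_cases hc : ∀ x y : α, ∃ E ∈ F, x ∉ E ∧ y ∉ E
  · have := noCover hk hI hc
    omega
  · push Not at hc
    obtain ⟨a, b, hxy⟩ := hc
    have hcov : ∀ E ∈ F, a ∈ E ∨ b ∈ E := by
      intro E hE
      by_cases h : a ∈ E
      · exact Or.inl h
      · exact Or.inr (hxy E hE h)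
    have hab : a ≠ b := by
      rintro rfl
      obtain ⟨E, hE, h⟩ := hstar a
      rcases hcov E hE with h' | h'
      · exact h h'
      · exact h h'
    have hne1 : (Gg F a b).Nonempty := by
      obtain ⟨E, hE, h⟩ := hstar b
      exact ⟨E.erase a, mem_Gg.mpr ⟨E, hE, (hcov E hE).resolve_right h, h, rfl⟩⟩
    have hne2 : (Gg F b a).Nonempty := by
      obtain ⟨E, hE, h⟩ := hstar a
      exact ⟨E.erase b, mem_Gg.mpr ⟨E, hE, (hcov E hE).resolve_left h, h, rfl⟩⟩
    have hF := split4 F a b
    have hF0 : #(F.filter (fun s => a ∉ s ∧ b ∉ s)) = 0 := by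
      rw [card_eq_zero, filter_eq_empty_iff]
      intro E hE h
      rcases hcov E hE with h' | h'
      · exact h.1 h'
      · exact h.2 h'
    have hg1 := card_Gg F a b
    have hg2 := card_Gg F b a
    have hd := card_Dd hk hab
    set U : Finset α := (univ.erase a).erase b with hUdef
    have hUc : #U + 2 = Fintype.card α := by
      rw [hUdef, card_erase_of_mem (mem_erase.mpr ⟨hab.symm, mem_univ _⟩),
        card_erase_of_mem (mem_univ _), card_univ]
      have : 1 < Fintype.card α := Fintype.one_lt_card_iff.mpr ⟨a, b, hab⟩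
      omega
    have hDU : #(Dd F a b) ≤ #U := by
      apply card_le_card
      intro x hx
      obtain ⟨E, hE, hxE⟩ := mem_biUnion.mp hx
      rw [mem_erase, mem_erase] at hxE
      exact mem_erase.mpr ⟨hxE.1, mem_erase.mpr ⟨hxE.2.1, mem_univ _⟩⟩
    have hU1 : ∀ e ∈ Gg F a b, e ⊆ U := by
      intro e he w hw
      obtain ⟨E, hE, ha, hb, rfl⟩ := mem_Gg.mp he
      rw [mem_erase] at hw
      exact mem_erase.mpr ⟨fun h => hb (h ▸ hw.2), mem_erase.mpr ⟨hw.1, mem_univ _⟩⟩
    have hU2 : ∀ e ∈ Gg F b a, e ⊆ U := by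
      intro e he w hw
      obtain ⟨E, hE, ha, hb, rfl⟩ := mem_Gg.mp he
      rw [mem_erase] at hw
      exact mem_erase.mpr ⟨hw.1, mem_erase.mpr ⟨fun h => hb (h ▸ hw.2), mem_univ _⟩⟩
    by_cases h10 : 10 ≤ #(Gg F a b)
    · have := cross_bound (fun e he => Gg_two hk he) (fun e he => Gg_two hk he) hU1 hU2
        (fun e he f hf => cross hI he hf) hne2 h10
      omega
    · by_cases h10' : 10 ≤ #(Gg F b a)
      · have := cross_bound (fun e he => Gg_two hk he) (fun e he => Gg_two hk he) hU2 hU1
          (fun e he f hf => cross hI he hf) hne1 h10'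
        omega
      · omega

/-- star lower bound: the shadow has at least `#F + v` members, where `#F ≤ C(v,2)` and
`v ≤ n - 1`. -/
theorem star_lower [Fintype α] {F : Finset (Finset α)} (hk : ∀ A ∈ F, #A = 3) {a : α}
    (ha : ∀ E ∈ F, a ∈ E) : ∃ v, #F ≤ v.choose 2 ∧ v + 1 ≤ Fintype.card α ∧
      #F + v ≤ #(∂ F) := by
  refine ⟨#(F.biUnion (fun E => E.erase a)), ?_, ?_, ?_⟩
  · have h1 : #F ≤ #(powersetCard 2 (F.biUnion (fun E => E.erase a))) := by
      apply card_le_card_of_injOn (fun E => E.erase a)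
      · intro E hE
        have hE' : E ∈ F := hE
        simp only [mem_coe, mem_powersetCard]
        exact ⟨fun w hw => mem_biUnion.mpr ⟨E, hE', hw⟩,
          by rw [card_erase_of_mem (ha E hE'), hk E hE']⟩
      · intro E hE E' hE' h
        have h3 := congrArg (insert a) h
        simpa [insert_erase (ha E hE), insert_erase (ha E' hE')] using h3
    rwa [card_powersetCard] at h1
  · have h1 : F.biUnion (fun E => E.erase a) ⊆ univ.erase a := by
      intro w hw
      obtain ⟨E, hE, hwE⟩ := mem_biUnion.mp hw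
      exact mem_erase.mpr ⟨(mem_erase.mp hwE).1, mem_univ _⟩
    have h2 := card_le_card h1
    rw [card_erase_of_mem (mem_univ _), card_univ] at h2
    have : 0 < Fintype.card α := Fintype.card_pos_iff.mpr ⟨a⟩
    omega
  · have hsp := card_filter_add_card_filter_not (s := ∂ F) (fun s => a ∈ s)
    have h1 : #F ≤ #((∂ F).filter (fun s => ¬ a ∈ s)) := by
      apply card_le_card_of_injOn (fun E => E.erase a)
      · intro E hE
        have hE' : E ∈ F := hE
        rw [mem_coe, mem_filter]
        exact ⟨erase_mem_shadow hE' (ha E hE'), notMem_erase _ _⟩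
      · intro E hE E' hE' h
        have h3 := congrArg (insert a) h
        simpa [insert_erase (ha E hE), insert_erase (ha E' hE')] using h3
    have h2 : #(F.biUnion (fun E => E.erase a)) ≤ #((∂ F).filter (fun s => a ∈ s)) := by
      apply card_le_card_of_injOn (fun x => ({a, x} : Finset α))
      · intro x hx
        obtain ⟨E, hE, hxE⟩ := mem_biUnion.mp (mem_coe.mp hx)
        rw [mem_erase] at hxE
        rw [mem_coe, mem_filter]
        refine ⟨pair_shadow hk hE ?_ (card_pair hxE.1.symm), by simp⟩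
        intro w hw
        simp only [mem_insert, mem_singleton] at hw
        rcases hw with rfl | rfl
        · exact ha E hE
        · exact hxE.2
      · intro x hx y hy hxy
        obtain ⟨E, hE, hxE⟩ := mem_biUnion.mp (mem_coe.mp hx)
        rw [mem_erase] at hxE
        have hx' : x ∈ ({a, y} : Finset α) := by
          have h1 : x ∈ ({a, x} : Finset α) := by simp
          have h2 : ({a, x} : Finset α) = {a, y} := hxy
          rwa [h2] at h1
        simp only [mem_insert, mem_singleton] at hx'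
        exact hx'.resolve_left hxE.1
    omega

theorem star_upper [Fintype α] (m x : ℕ) (hx : x + 1 ≤ Fintype.card α) (hm : m ≤ x.choose 2) :
    ∃ F : Finset (Finset α), (∀ A ∈ F, #A = 3) ∧ (∀ A ∈ F, ∀ B ∈ F, (A ∩ B).Nonempty) ∧
      #F = m ∧ #(∂ F) ≤ m + x := by
  obtain ⟨a⟩ : Nonempty α := Fintype.card_pos_iff.mp (by omega)
  obtain ⟨X, hX, hXc⟩ := exists_subset_card_eq (s := (univ : Finset α).erase a) (n := x)
    (by rw [card_erase_of_mem (mem_univ _), card_univ]; omega)
  obtain ⟨G, hG, hGc⟩ := exists_subset_card_eq (s := powersetCard 2 X) (n := m)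
    (by rw [card_powersetCard, hXc]; exact hm)
  have haX : a ∉ X := fun h => (mem_erase.mp (hX h)).1 rfl
  have hGX : ∀ e ∈ G, e ⊆ X ∧ #e = 2 := fun e he => mem_powersetCard.mp (hG he)
  have haG : ∀ e ∈ G, a ∉ e := fun e he h => haX ((hGX e he).1 h)
  refine ⟨G.image (insert a), ?_, ?_, ?_, ?_⟩
  · intro A hA
    obtain ⟨e, he, rfl⟩ := mem_image.mp hA
    rw [card_insert_of_notMem (haG e he), (hGX e he).2]
  · intro A hA B hB
    obtain ⟨e, he, rfl⟩ := mem_image.mp hA
    obtain ⟨f, hf, rfl⟩ := mem_image.mp hB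
    exact ⟨a, mem_inter.mpr ⟨mem_insert_self _ _, mem_insert_self _ _⟩⟩
  · rw [card_image_of_injOn, hGc]
    intro e he f hf h
    have h1 := congrArg (fun s => erase s a) h
    simpa [erase_insert (haG e he), erase_insert (haG f hf)] using h1
  · have hsub : ∂ (G.image (insert a)) ⊆ G ∪ X.image (fun x => ({a, x} : Finset α)) := by
      intro s hs
      rw [mem_shadow_iff] at hs
      obtain ⟨E, hE, w, hw, rfl⟩ := hs
      obtain ⟨e, he, rfl⟩ := mem_image.mp hE
      rw [mem_union]
      by_cases hwa : w = a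
      · left
        rw [hwa, erase_insert (haG e he)]
        exact he
      · right
        have hwe : w ∈ e := (mem_insert.mp hw).resolve_left hwa
        have hc1 : #(e.erase w) = 1 := by rw [card_erase_of_mem hwe, (hGX e he).2]
        obtain ⟨u, hu⟩ := card_eq_one.mp hc1
        have hue : u ∈ e := by
          have : u ∈ e.erase w := by rw [hu]; simp
          exact mem_of_mem_erase this
        refine mem_image.mpr ⟨u, (hGX e he).1 hue, ?_⟩
        rw [erase_insert_of_ne (Ne.symm hwa), hu]
    refine (card_le_card hsub).trans ((card_union_le _ _).trans ?_)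
    have : #(X.image (fun x => ({a, x} : Finset α))) ≤ #X := card_image_le
    omega

end H281Sh
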