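import Mathlib

open Finset
open scoped FinsetFamily

namespace H281Sh

variable {α : Type*} [DecidableEq α]

/-- `{a,b,c}` and the sets `abx` (`x ∈ X ∪ Y`), `acx`, `bcx` (`x ∈ X`). -/
def fam (a b c : α) (X Y : Finset α) : Finset (Finset α) :=
  ((({({a, b, c} : Finset α)} : Finset (Finset α)) ∪
    (X ∪ Y).image (fun x => ({a, b, x} : Finset α))) ∪
    X.image (fun x => ({a, c, x} : Finset α))) ∪ X.image (fun x => ({b, c, x} : Finset α))

theorem mem_fam {a b c : α} {X Y : Finset α} {E : Finset α} :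
    E ∈ fam a b c X Y ↔ E = {a, b, c} ∨ (∃ x ∈ X ∪ Y, E = {a, b, x}) ∨
      (∃ x ∈ X, E = {a, c, x}) ∨ (∃ x ∈ X, E = {b, c, x}) := by
  simp only [fam, mem_union, mem_singleton, mem_image]
  constructor
  · rintro (((h | ⟨x, hx, rfl⟩) | ⟨x, hx, rfl⟩) | ⟨x, hx, rfl⟩)
    · exact Or.inl h
    · exact Or.inr (Or.inl ⟨x, hx, rfl⟩)
    · exact Or.inr (Or.inr (Or.inl ⟨x, hx, rfl⟩))
    · exact Or.inr (Or.inr (Or.inr ⟨x, hx, rfl⟩))
  · rintro (h | ⟨x, hx, rfl⟩ | ⟨x, hx, rfl⟩ | ⟨x, hx, rfl⟩)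
    · exact Or.inl (Or.inl (Or.inl h))
    · exact Or.inl (Or.inl (Or.inr ⟨x, hx, rfl⟩))
    · exact Or.inl (Or.inr ⟨x, hx, rfl⟩)
    · exact Or.inr ⟨x, hx, rfl⟩

theorem image_card (p q : α) (X : Finset α) (hp : p ∉ X) (hq : q ∉ X) :
    #(X.image (fun x => ({p, q, x} : Finset α))) = #X := by
  apply card_image_of_injOn
  intro x hx y hy hxy
  have hx' : x ∈ ({p, q, y} : Finset α) := by
    have h1 : x ∈ ({p, q, x} : Finset α) := by simp
    have h2 : ({p, q, x} : Finset α) = {p, q, y} := hxy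
    rwa [h2] at h1
  simp only [mem_insert, mem_singleton] at hx'
  rcases hx' with rfl | rfl | h
  · exact absurd hx hp
  · exact absurd hx hq
  · exact h

theorem card_fam {a b c : α} {X Y : Finset α} (hab : a ≠ b) (hac : a ≠ c) (hbc : b ≠ c)
    (ha : a ∉ X ∪ Y) (hb : b ∉ X ∪ Y) (hc : c ∉ X ∪ Y) (hXY : Disjoint X Y) :
    #(fam a b c X Y) = 3 * #X + #Y + 1 := by
  have haX : a ∉ X := fun h => ha (mem_union_left _ h)
  have hbX : b ∉ X := fun h => hb (mem_union_left _ h)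
  have hcX : c ∉ X := fun h => hc (mem_union_left _ h)
  unfold fam
  rw [card_union_of_disjoint, card_union_of_disjoint, card_union_of_disjoint,
    image_card a b _ ha hb, image_card a c _ haX hcX, image_card b c _ hbX hcX,
    card_union_of_disjoint hXY, card_singleton]
  · ring
  · rw [disjoint_left]
    intro E hE hE'
    rw [mem_singleton] at hE
    obtain ⟨x, hx, hxE⟩ := mem_image.mp hE'
    have h1 : c ∈ E := by rw [hE]; simp
    rw [← hxE] at h1
    simp only [mem_insert, mem_singleton] at h1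
    rcases h1 with h | h | h
    · exact hac h.symm
    · exact hbc h.symm
    · exact hc (h ▸ hx)
  · rw [disjoint_left]
    intro E hE hE'
    obtain ⟨x, hx, hxE⟩ := mem_image.mp hE'
    have h1 : b ∉ E := by
      rw [← hxE]
      simp only [mem_insert, mem_singleton, not_or]
      exact ⟨hab.symm, hbc, fun h => hbX (h ▸ hx)⟩
    rw [mem_union, mem_singleton] at hE
    rcases hE with rfl | hE
    · exact h1 (by simp)
    · obtain ⟨y, hy, rfl⟩ := mem_image.mp hE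
      exact h1 (by simp)
  · rw [disjoint_left]
    intro E hE hE'
    obtain ⟨x, hx, hxE⟩ := mem_image.mp hE'
    have h1 : a ∉ E := by
      rw [← hxE]
      simp only [mem_insert, mem_singleton, not_or]
      exact ⟨hab, hac, fun h => haX (h ▸ hx)⟩
    rw [mem_union, mem_union, mem_singleton] at hE
    rcases hE with (rfl | hE) | hE
    · exact h1 (by simp)
    · obtain ⟨y, hy, rfl⟩ := mem_image.mp hE
      exact h1 (by simp)
    · obtain ⟨y, hy, rfl⟩ := mem_image.mp hE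
      exact h1 (by simp)

theorem fam_three {a b c : α} {X Y : Finset α} (hab : a ≠ b) (hac : a ≠ c) (hbc : b ≠ c)
    (ha : a ∉ X ∪ Y) (hb : b ∉ X ∪ Y) (hc : c ∉ X ∪ Y) :
    ∀ E ∈ fam a b c X Y, #E = 3 := by
  intro E hE
  rcases mem_fam.mp hE with rfl | ⟨x, hx, rfl⟩ | ⟨x, hx, rfl⟩ | ⟨x, hx, rfl⟩
  · exact card_eq_three.mpr ⟨a, b, c, hab, hac, hbc, rfl⟩
  · exact card_eq_three.mpr ⟨a, b, x, hab, fun h => ha (h ▸ hx), fun h => hb (h ▸ hx), rfl⟩
  · have hx' : x ∈ X ∪ Y := mem_union_left _ hx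
    exact card_eq_three.mpr ⟨a, c, x, hac, fun h => ha (h ▸ hx'), fun h => hc (h ▸ hx'), rfl⟩
  · have hx' : x ∈ X ∪ Y := mem_union_left _ hx
    exact card_eq_three.mpr ⟨b, c, x, hbc, fun h => hb (h ▸ hx'), fun h => hc (h ▸ hx'), rfl⟩

theorem fam_inter {a b c : α} {X Y : Finset α} :
    ∀ E ∈ fam a b c X Y, ∀ E' ∈ fam a b c X Y, (E ∩ E').Nonempty := by
  have key : ∀ E ∈ fam a b c X Y, (a ∈ E ∧ b ∈ E) ∨ (a ∈ E ∧ c ∈ E) ∨ (b ∈ E ∧ c ∈ E) := by
    intro E hE
    rcases mem_fam.mp hE with rfl | ⟨x, hx, rfl⟩ | ⟨x, hx, rfl⟩ | ⟨x, hx, rfl⟩ <;> simp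
  intro E hE E' hE'
  rcases key E hE with h | h | h <;> rcases key E' hE' with h' | h' | h'
  · exact ⟨a, mem_inter.mpr ⟨h.1, h'.1⟩⟩
  · exact ⟨a, mem_inter.mpr ⟨h.1, h'.1⟩⟩
  · exact ⟨b, mem_inter.mpr ⟨h.2, h'.1⟩⟩
  · exact ⟨a, mem_inter.mpr ⟨h.1, h'.1⟩⟩
  · exact ⟨a, mem_inter.mpr ⟨h.1, h'.1⟩⟩
  · exact ⟨c, mem_inter.mpr ⟨h.2, h'.2⟩⟩
  · exact ⟨b, mem_inter.mpr ⟨h.1, h'.2⟩⟩
  · exact ⟨c, mem_inter.mpr ⟨h.2, h'.2⟩⟩
  · exact ⟨b, mem_inter.mpr ⟨h.1, h'.1⟩⟩

theorem erase3 {p q r : α} (hpq : p ≠ q) (hpr : p ≠ r) (hqr : q ≠ r) {w : α}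
    (hw : w ∈ ({p, q, r} : Finset α)) :
    ({p, q, r} : Finset α).erase w = {q, r} ∨ ({p, q, r} : Finset α).erase w = {p, r} ∨
      ({p, q, r} : Finset α).erase w = {p, q} := by
  simp only [mem_insert, mem_singleton] at hw
  rcases hw with rfl | rfl | rfl
  · left
    ext u
    simp only [mem_erase, mem_insert, mem_singleton]
    constructor
    · rintro ⟨h1, h2 | h2 | h2⟩
      · exact absurd h2 h1
      · exact Or.inl h2
      · exact Or.inr h2
    · rintro (rfl | rfl)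
      · exact ⟨hpq.symm, Or.inr (Or.inl rfl)⟩
      · exact ⟨hpr.symm, Or.inr (Or.inr rfl)⟩
  · right; left
    ext u
    simp only [mem_erase, mem_insert, mem_singleton]
    constructor
    · rintro ⟨h1, h2 | h2 | h2⟩
      · exact Or.inl h2
      · exact absurd h2 h1
      · exact Or.inr h2
    · rintro (rfl | rfl)
      · exact ⟨hpq, Or.inl rfl⟩
      · exact ⟨hqr.symm, Or.inr (Or.inr rfl)⟩
  · right; right
    ext u
    simp only [mem_erase, mem_insert, mem_singleton]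
    constructor
    · rintro ⟨h1, h2 | h2 | h2⟩
      · exact Or.inl h2
      · exact Or.inr h2
      · exact absurd h2 h1
    · rintro (rfl | rfl)
      · exact ⟨hpr, Or.inl rfl⟩
      · exact ⟨hqr, Or.inr (Or.inl rfl)⟩

theorem shadow_fam {a b c : α} {X Y : Finset α} (hab : a ≠ b) (hac : a ≠ c) (hbc : b ≠ c)
    (ha : a ∉ X ∪ Y) (hb : b ∉ X ∪ Y) (hc : c ∉ X ∪ Y) (hXY : Disjoint X Y) :
    #(∂ (fam a b c X Y)) ≤ 3 * #X + 2 * #Y + 3 := by
  have hsub : ∂ (fam a b c X Y) ⊆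
      ((({({b, c} : Finset α), {a, c}, {a, b}} : Finset (Finset α)) ∪
      (X ∪ Y).image (fun x => ({a, x} : Finset α))) ∪
      (X ∪ Y).image (fun x => ({b, x} : Finset α))) ∪ X.image (fun x => ({c, x} : Finset α)) := by
    intro s hs
    rw [mem_shadow_iff] at hs
    obtain ⟨E, hE, w, hw, rfl⟩ := hs
    simp only [mem_union, mem_image, mem_insert, mem_singleton]
    rcases mem_fam.mp hE with rfl | ⟨x, hx, rfl⟩ | ⟨x, hx, rfl⟩ | ⟨x, hx, rfl⟩
    · rcases erase3 hab hac hbc hw with h | h | h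
      · exact Or.inl (Or.inl (Or.inl (Or.inl h)))
      · exact Or.inl (Or.inl (Or.inl (Or.inr (Or.inl h))))
      · exact Or.inl (Or.inl (Or.inl (Or.inr (Or.inr h))))
    · have hx' : x ∈ X ∨ x ∈ Y := mem_union.mp hx
      rcases erase3 hab (fun h => ha (h ▸ hx)) (fun h => hb (h ▸ hx)) hw with h | h | h
      · exact Or.inl (Or.inr ⟨x, hx', h.symm⟩)
      · exact Or.inl (Or.inl (Or.inr ⟨x, hx', h.symm⟩))
      · exact Or.inl (Or.inl (Or.inl (Or.inr (Or.inr h))))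
    · have hx' : x ∈ X ∪ Y := mem_union_left _ hx
      rcases erase3 hac (fun h => ha (h ▸ hx')) (fun h => hc (h ▸ hx')) hw with h | h | h
      · exact Or.inr ⟨x, hx, h.symm⟩
      · exact Or.inl (Or.inl (Or.inr ⟨x, Or.inl hx, h.symm⟩))
      · exact Or.inl (Or.inl (Or.inl (Or.inr (Or.inl h))))
    · have hx' : x ∈ X ∪ Y := mem_union_left _ hx
      rcases erase3 hbc (fun h => hb (h ▸ hx')) (fun h => hc (h ▸ hx')) hw with h | h | h
      · exact Or.inr ⟨x, hx, h.symm⟩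
      · exact Or.inl (Or.inr ⟨x, Or.inl hx, h.symm⟩)
      · exact Or.inl (Or.inl (Or.inl (Or.inl h)))
  refine (card_le_card hsub).trans ?_
  refine (card_union_le _ _).trans ?_
  have h1 : #(X.image (fun x => ({c, x} : Finset α))) ≤ #X := card_image_le
  have h2 : #((X ∪ Y).image (fun x => ({b, x} : Finset α))) ≤ #X + #Y :=
    card_image_le.trans (card_union_le _ _)
  have h3 : #((X ∪ Y).image (fun x => ({a, x} : Finset α))) ≤ #X + #Y :=
    card_image_le.trans (card_union_le _ _)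
  have h4 : #({({b, c} : Finset α), {a, c}, {a, b}} : Finset (Finset α)) ≤ 3 := card_le_three
  have h5 := card_union_le ((({({b, c} : Finset α), {a, c}, {a, b}} : Finset (Finset α)) ∪
      (X ∪ Y).image (fun x => ({a, x} : Finset α)))) ((X ∪ Y).image (fun x => ({b, x} : Finset α)))
  have h6 := card_union_le (({({b, c} : Finset α), {a, c}, {a, b}} : Finset (Finset α)))
      ((X ∪ Y).image (fun x => ({a, x} : Finset α)))
  omega

/-- Existence of a family of exact size `m ≤ 3x+y+1` with shadow at most `3x+2y+3`. -/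
theorem exists_fam [Fintype α] (x y m : ℕ) (hn : 3 + x + y ≤ Fintype.card α)
    (hm : m ≤ 3 * x + y + 1) :
    ∃ F : Finset (Finset α), (∀ A ∈ F, #A = 3) ∧ (∀ A ∈ F, ∀ B ∈ F, (A ∩ B).Nonempty) ∧
      #F = m ∧ #(∂ F) ≤ 3 * x + 2 * y + 3 := by
  obtain ⟨T, -, hT⟩ := exists_subset_card_eq (s := (univ : Finset α)) (n := 3)
    (by rw [card_univ]; omega)
  obtain ⟨a, b, c, hab, hac, hbc, rfl⟩ := card_eq_three.mp hT
  have h1 : #(univ \ ({a, b, c} : Finset α)) = Fintype.card α - 3 := by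
    rw [card_sdiff_of_subset (subset_univ _), hT, card_univ]
  obtain ⟨Z, hZ, hZc⟩ := exists_subset_card_eq (s := univ \ ({a, b, c} : Finset α)) (n := x + y)
    (by omega)
  obtain ⟨X, hX, hXc⟩ := exists_subset_card_eq (s := Z) (n := x) (by omega)
  have hXY : X ∪ (Z \ X) = Z := union_sdiff_of_subset hX
  have hYc : #(Z \ X) = y := by
    rw [card_sdiff_of_subset hX]; omega
  have ha : a ∉ X ∪ (Z \ X) := by
    rw [hXY]; intro h; have := hZ h; simp at this
  have hb : b ∉ X ∪ (Z \ X) := by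
    rw [hXY]; intro h; have := hZ h; simp at this
  have hc : c ∉ X ∪ (Z \ X) := by
    rw [hXY]; intro h; have := hZ h; simp at this
  have hcard := card_fam hab hac hbc ha hb hc disjoint_sdiff
  have hsh := shadow_fam hab hac hbc ha hb hc disjoint_sdiff
  rw [hXc, hYc] at hcard hsh
  obtain ⟨F, hF, hFc⟩ := exists_subset_card_eq (s := fam a b c X (Z \ X)) (n := m) (by omega)
  exact ⟨F, fun A hA => fam_three hab hac hbc ha hb hc A (hF hA),
    fun A hA B hB => fam_inter A (hF hA) B (hF hB), hFc,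
    (card_le_card (shadow_mono hF)).trans hsh⟩

theorem upper [Fintype α] (m : ℕ) (hm : m + 8 ≤ 3 * Fintype.card α) (hm1 : 2 ≤ m) :
    ∃ F : Finset (Finset α), (∀ A ∈ F, #A = 3) ∧ (∀ A ∈ F, ∀ B ∈ F, (A ∩ B).Nonempty) ∧
      #F = m ∧ #(∂ F) ≤ if m % 3 = 1 then m + 2 else m + 3 := by
  have h3 : m % 3 = 0 ∨ m % 3 = 1 ∨ m % 3 = 2 := by omega
  rcases h3 with h | h | h
  · obtain ⟨F, h1, h2, h3, h4⟩ := exists_fam (α := α) (m / 3) 0 m (by omega) (by omega)
    refine ⟨F, h1, h2, h3, ?_⟩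
    rw [if_neg (by omega)]
    omega
  · obtain ⟨F, h1, h2, h3, h4⟩ := exists_fam (α := α) (m / 3) 0 m (by omega) (by omega)
    refine ⟨F, h1, h2, h3, ?_⟩
    rw [if_pos h]
    omega
  · obtain ⟨F, h1, h2, h3, h4⟩ := exists_fam (α := α) (m / 3) 1 m (by omega) (by omega)
    refine ⟨F, h1, h2, h3, ?_⟩
    rw [if_neg (by omega)]
    omega

end H281Sh
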